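import Pool.Agent.U174.AK.Stm

/-!
# Project AK, package LT: the lifting theorem
-/

set_option autoImplicit false

namespace Pool.Agent.U88.AK

open Pool.Agent.U174.AK IsLocalRing

section ext
variable {F L : Type} [Field F] [Field L]

theorem ext_refl (E : Subfield F) (g : E →+* L) : Ext E g E g := ⟨le_rfl, fun _ => rfl⟩

theorem ext_trans {E₁ E₂ E₃ : Subfield F} {g₁ : E₁ →+* L} {g₂ : E₂ →+* L} {g₃ : E₃ →+* L}
    (h₁ : Ext E₁ g₁ E₂ g₂) (h₂ : Ext E₂ g₂ E₃ g₃) : Ext E₁ g₁ E₃ g₃ := by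
  obtain ⟨a, ha⟩ := h₁
  obtain ⟨b, hb⟩ := h₂
  refine ⟨a.trans b, fun x => ?_⟩
  rw [← ha x, ← hb ⟨x, a x.2⟩]

theorem ext_apply {E₁ E₂ : Subfield F} {g₁ : E₁ →+* L} {g₂ : E₂ →+* L} (h : Ext E₁ g₁ E₂ g₂) {x : F}
    (hx : x ∈ E₁) (hx' : x ∈ E₂) : g₂ ⟨x, hx'⟩ = g₁ ⟨x, hx⟩ := by
  obtain ⟨a, ha⟩ := h
  exact ha ⟨x, hx⟩

/-- the union of a chain -/
theorem union (c : Set (Σ E : Subfield F, (E →+* L))) (hc : c.Nonempty)
    (hch : ∀ p ∈ c, ∀ q ∈ c, Ext p.1 p.2 q.1 q.2 ∨ Ext q.1 q.2 p.1 p.2) :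
    ∃ (E : Subfield F) (g : E →+* L), (∀ p ∈ c, Ext p.1 p.2 E g) ∧ ∀ x ∈ E, ∃ p ∈ c, x ∈ p.1 := by
  classical
  have hdir : DirectedOn (· ≤ ·) ((fun p : Σ E : Subfield F, (E →+* L) => p.1) '' c) := by
    rintro _ ⟨p, hp, rfl⟩ _ ⟨q, hq, rfl⟩
    rcases hch p hp q hq with h | h
    · exact ⟨q.1, ⟨q, hq, rfl⟩, h.1, le_rfl⟩
    · exact ⟨p.1, ⟨p, hp, rfl⟩, le_rfl, h.1⟩
  obtain ⟨E, hE⟩ : ∃ E : Subfield F, ∀ x, x ∈ E ↔ ∃ p ∈ c, x ∈ p.1 := by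
    refine ⟨sSup ((fun p : Σ E : Subfield F, (E →+* L) => p.1) '' c), fun x => ?_⟩
    rw [Subfield.mem_sSup_of_directedOn (hc.image _) hdir]
    constructor
    · rintro ⟨_, ⟨p, hp, rfl⟩, hx⟩
      exact ⟨p, hp, hx⟩
    · rintro ⟨p, hp, hx⟩
      exact ⟨_, ⟨p, hp, rfl⟩, hx⟩
  have hagree : ∀ p ∈ c, ∀ q ∈ c, ∀ (x : F) (h : x ∈ p.1) (h' : x ∈ q.1), p.2 ⟨x, h⟩ = q.2 ⟨x, h'⟩ := by
    intro p hp q hq x h h'
    rcases hch p hp q hq with hh | hh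
    · exact (ext_apply hh h h').symm
    · exact ext_apply hh h' h
  have hex : ∀ x : E, ∃ p ∈ c, (x : F) ∈ p.1 := fun x => (hE x).1 x.2
  choose pr hpr hpx using hex
  have key : ∀ p ∈ c, ∀ (x : F) (h : x ∈ p.1) (h' : x ∈ E), (pr ⟨x, h'⟩).2 ⟨x, hpx ⟨x, h'⟩⟩ = p.2 ⟨x, h⟩ :=
    fun p hp x h h' => hagree _ (hpr _) p hp x _ h
  have hboth : ∀ x y : E, ∃ p ∈ c, (x : F) ∈ p.1 ∧ (y : F) ∈ p.1 := by
    intro x y
    rcases hch _ (hpr x) _ (hpr y) with h | h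
    · exact ⟨_, hpr y, h.1 (hpx x), hpx y⟩
    · exact ⟨_, hpr x, hpx x, h.1 (hpx y)⟩
  let g : E →+* L :=
    { toFun := fun x => (pr x).2 ⟨x, hpx x⟩
      map_one' := by
        obtain ⟨p, hp⟩ := hc
        have h1 : (1 : F) ∈ p.1 := p.1.one_mem
        exact (key p hp 1 h1 E.one_mem).trans (map_one p.2)
      map_zero' := by
        obtain ⟨p, hp⟩ := hc
        have h1 : (0 : F) ∈ p.1 := p.1.zero_mem
        exact (key p hp 0 h1 E.zero_mem).trans (map_zero p.2)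
      map_mul' := by
        intro x y
        obtain ⟨p, hp, hx, hy⟩ := hboth x y
        have h1 := key p hp _ (p.1.mul_mem hx hy) (E.mul_mem x.2 y.2)
        have h2 := key p hp _ hx x.2
        have h3 := key p hp _ hy y.2
        have h4 : p.2 ⟨(x : F) * y, p.1.mul_mem hx hy⟩ = p.2 ⟨x, hx⟩ * p.2 ⟨y, hy⟩ := by
          rw [← map_mul]; rfl
        exact h1.trans (h4.trans (congrArg₂ (· * ·) h2.symm h3.symm))
      map_add' := by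
        intro x y
        obtain ⟨p, hp, hx, hy⟩ := hboth x y
        have h1 := key p hp _ (p.1.add_mem hx hy) (E.add_mem x.2 y.2)
        have h2 := key p hp _ hx x.2
        have h3 := key p hp _ hy y.2
        have h4 : p.2 ⟨(x : F) + y, p.1.add_mem hx hy⟩ = p.2 ⟨x, hx⟩ + p.2 ⟨y, hy⟩ := by
          rw [← map_add]; rfl
        exact h1.trans (h4.trans (congrArg₂ (· + ·) h2.symm h3.symm)) }
  refine ⟨E, g, fun p hp => ⟨fun x hx => (hE x).2 ⟨p, hp, hx⟩, fun x => ?_⟩, fun x hx => (hE x).1 hx⟩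
  exact key p hp x x.2 _

/-- Zorn's lemma -/
theorem zorn (T : (E : Subfield F) → (E →+* L) → Prop)
    (hT : ∀ (c : Set (Σ E : Subfield F, (E →+* L))), c.Nonempty → (∀ p ∈ c, T p.1 p.2) →
      ∀ (E : Subfield F) (g : E →+* L), (∀ p ∈ c, Ext p.1 p.2 E g) → (∀ x ∈ E, ∃ p ∈ c, x ∈ p.1) → T E g)
    (E₀ : Subfield F) (g₀ : E₀ →+* L) (h₀ : T E₀ g₀) :
    ∃ (E : Subfield F) (g : E →+* L), Ext E₀ g₀ E g ∧ T E g ∧
      ∀ (E' : Subfield F) (g' : E' →+* L), Ext E g E' g' → T E' g' → E' ≤ E := by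
  have key : ∃ m : {p : Σ E : Subfield F, (E →+* L) // T p.1 p.2 ∧ Ext E₀ g₀ p.1 p.2},
      ∀ a : {p : Σ E : Subfield F, (E →+* L) // T p.1 p.2 ∧ Ext E₀ g₀ p.1 p.2},
        Ext m.1.1 m.1.2 a.1.1 a.1.2 → Ext a.1.1 a.1.2 m.1.1 m.1.2 := by
    apply exists_maximal_of_chains_bounded
      (α := {p : Σ E : Subfield F, (E →+* L) // T p.1 p.2 ∧ Ext E₀ g₀ p.1 p.2})
      (r := fun p q => Ext p.1.1 p.1.2 q.1.1 q.1.2)
    · intro c hc
      rcases c.eq_empty_or_nonempty with rfl | hne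
      · exact ⟨⟨⟨E₀, g₀⟩, h₀, ext_refl _ _⟩, fun a ha => absurd ha (Set.notMem_empty _)⟩
      · obtain ⟨E, g, hE, hE'⟩ := union (Subtype.val '' c) (hne.image _) (by
          rintro _ ⟨p, hp, rfl⟩ _ ⟨q, hq, rfl⟩
          by_cases hpq : p = q
          · subst hpq
            exact Or.inl (ext_refl _ _)
          · exact hc hp hq hpq)
        have h1 : T E g := hT (Subtype.val '' c) (hne.image _) (by
          rintro _ ⟨p, hp, rfl⟩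
          exact p.2.1) E g hE hE'
        obtain ⟨a, ha⟩ := hne
        exact ⟨⟨⟨E, g⟩, h1, ext_trans a.2.2 (hE _ ⟨a, ha, rfl⟩)⟩, fun b hb => hE _ ⟨b, hb, rfl⟩⟩
    · exact fun {a b d} h h' => ext_trans h h'
  obtain ⟨m, hm⟩ := key
  obtain ⟨⟨E, g⟩, h1, h2⟩ := m
  refine ⟨E, g, h2, h1, fun E' g' h3 h4 => ?_⟩
  exact (hm ⟨⟨E', g'⟩, h4, ext_trans h2 h3⟩ h3).1

theorem part_union {O : ValuationSubring F} {P : ValuationSubring L}
    {ρ : ResidueField O →+* ResidueField P} {ν : O.ValueGroup →*₀ P.ValueGroup}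
    (c : Set (Σ E : Subfield F, (E →+* L))) (hT : ∀ p ∈ c, Part O P ρ ν p.1 p.2)
    (E : Subfield F) (g : E →+* L) (h : ∀ p ∈ c, Ext p.1 p.2 E g) (h' : ∀ x ∈ E, ∃ p ∈ c, x ∈ p.1) :
    Part O P ρ ν E g := by
  refine ⟨fun x => ?_, fun x => ?_⟩
  · obtain ⟨p, hp, hx⟩ := h' x x.2
    have h1 := (hT p hp).val ⟨x, hx⟩
    have h2 : g x = p.2 ⟨x, hx⟩ := ext_apply (h p hp) hx x.2
    rw [h2, h1]
  · obtain ⟨p, hp, hx⟩ := h' x x.2
    have h1 := (hT p hp).res ⟨x, hx⟩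
    have h2 : g x = p.2 ⟨x, hx⟩ := ext_apply (h p hp) hx x.2
    rw [h2, h1]

end ext

theorem rs_surj {F : Type} [Field F] (O : ValuationSubring F) (r : ResidueField O) :
    ∃ x ∈ O, rs O x = r := by
  obtain ⟨x, rfl⟩ := IsLocalRing.residue_surjective r
  refine ⟨x, x.2, ?_⟩
  unfold rs
  rw [dif_pos x.2]

theorem t_LT : S_RES → S_VAL → S_SEC → S_IMM → S_LT := by
  intro hRES hVAL hSEC hIMM F F' L _ _ _ OF O' P s s' ι j ρ ν hcount hhen hchar hbig hν hs hs' hss hpure hρ hν'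
  classical
  -- the start
  let e : F ≃+* ι.f.fieldRange := RingEquiv.ofBijective ι.f.rangeRestrictField ι.f.rangeRestrictField_bijective
  let g₀ : ι.f.fieldRange →+* L := j.f.comp (e.symm : ι.f.fieldRange →+* F)
  have hg₀ : ∀ (a : F) (h : ι.f a ∈ ι.f.fieldRange), g₀ ⟨ι.f a, h⟩ = j.f a := by
    intro a h
    have h1 : e a = ⟨ι.f a, h⟩ := rfl
    show j.f (e.symm ⟨ι.f a, h⟩) = j.f a
    rw [← h1, RingEquiv.symm_apply_apply]
  have hmem₀ : ∀ a : F, ι.f a ∈ ι.f.fieldRange := fun a => ⟨a, rfl⟩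
  have hpart₀ : Part O' P ρ ν ι.f.fieldRange g₀ := by
    refine ⟨fun x => ?_, fun x => ?_⟩
    · obtain ⟨x, hx⟩ := x
      obtain ⟨a, rfl⟩ := RingHom.mem_fieldRange.1 hx
      have h1 : P.valuation (j.f a) = ν (O'.valuation (ι.f a)) := by
        rw [← j.val_valuation, ← hν', ι.val_valuation]
      rw [← h1]
      exact congrArg _ (hg₀ a hx)
    · obtain ⟨x, hx⟩ := x
      obtain ⟨a, rfl⟩ := RingHom.mem_fieldRange.1 hx
      have h1 : rs P (j.f a) = ρ (rs O' (ι.f a)) := by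
        rw [← j.res_rs, ← hρ, ι.res_rs]
      rw [← h1]
      exact congrArg _ (hg₀ a hx)
  -- step 1
  obtain ⟨E₁, g₁, hx₁, ⟨hp₁, hv₁⟩, hmax₁⟩ := zorn (F := F') (L := L)
    (fun E g => Part O' P ρ ν E g ∧ ∀ x ∈ E, ∃ y ∈ ι.f.fieldRange, O'.valuation x = O'.valuation y)
    (fun c hc hT E g h h' => ⟨part_union c (fun p hp => (hT p hp).1) E g h h', fun x hx => by
      obtain ⟨p, hp, hxp⟩ := h' x hx
      exact (hT p hp).2 x hxp⟩) ι.f.fieldRange g₀ ⟨hpart₀, fun x hx => ⟨x, hx, rfl⟩⟩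
  have hres₁ : ∀ r, ∃ x ∈ E₁, x ∈ O' ∧ rs O' x = r := by
    intro r
    obtain ⟨E', g', h1, h2, ⟨x, hx, hxO, hxr⟩, h3⟩ := hRES F' L O' P ρ ν hhen hbig.hen hchar hν E₁ g₁ hp₁ r
    refine ⟨x, hmax₁ E' g' h1 ⟨h2, fun y hy => ?_⟩ hx, hxO, hxr⟩
    obtain ⟨z, hz, hyz⟩ := h3 y hy
    obtain ⟨w, hw, hzw⟩ := hv₁ z hz
    exact ⟨w, hw, hyz.trans hzw⟩
  -- the section
  have hcV : Countable O'.ValueGroup := O'.valuation_surjective.countable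
  have hcU : Countable O'.ValueGroupˣ := Units.val_injective.countable
  let u : OF.ValueGroupˣ →* O'.ValueGroupˣ := Units.map (ι.val : OF.ValueGroup →* O'.ValueGroup)
  have hu : ∀ γ, ((u γ : O'.ValueGroupˣ) : O'.ValueGroup) = ι.val γ := fun γ => rfl
  have huinj : Function.Injective u := by
    intro γ δ h
    apply Units.ext
    apply ι.val_strictMono.injective
    rw [← hu, ← hu, h]
  have hH : ∀ (γ : O'.ValueGroupˣ) (δ : OF.ValueGroup), ι.val δ = γ → γ ∈ u.range := by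
    intro γ δ h
    have h0 : δ ≠ 0 := by
      rintro rfl
      rw [map_zero] at h
      exact γ.ne_zero h.symm
    refine ⟨Units.mk0 δ h0, Units.ext ?_⟩
    rw [hu]
    exact h
  let eH : OF.ValueGroupˣ ≃* u.range := MonoidHom.ofInjective huinj
  let t₀ : u.range →* Lˣ := ((Units.map (j.f : F →* L)).comp s).comp (eH.symm : u.range →* OF.ValueGroupˣ)
  have ht₀ : ∀ (γ : OF.ValueGroupˣ) (h : u γ ∈ u.range), ((t₀ ⟨u γ, h⟩ : Lˣ) : L) = j.f ((s γ : Fˣ) : F) := by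
    intro γ h
    have h1 : eH γ = ⟨u γ, h⟩ := rfl
    show j.f ((s (eH.symm ⟨u γ, h⟩) : Fˣ) : F) = _
    rw [← h1, MulEquiv.symm_apply_apply]
  obtain ⟨t, ht1, ht2⟩ := hSEC L P hbig.sat O'.ValueGroupˣ hcU u.range (by
    intro γ m hm hγ
    obtain ⟨δ, hδ⟩ := hγ
    obtain ⟨ε, hε⟩ := hpure (γ : O'.ValueGroup) m hm ⟨(δ : OF.ValueGroup), by
      rw [← hu, hδ]
      exact Units.val_pow_eq_pow_val γ m⟩
    exact hH γ ε hε) (Units.map (ν : O'.ValueGroup →* P.ValueGroup)) t₀ (by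
    rintro ⟨x, hx⟩
    obtain ⟨γ, rfl⟩ := MonoidHom.mem_range.1 hx
    have h1 : P.valuation (j.f ((s γ : Fˣ) : F)) = ν (u γ : O'.ValueGroup) := by
      rw [← j.val_valuation, hs γ, hu, hν']
    exact (congrArg _ (ht₀ γ hx)).trans h1)
  have ht2' : ∀ γ : O'.ValueGroupˣ, P.valuation ((t γ : Lˣ) : L) = ν γ := fun γ => ht2 γ
  have ht1' : ∀ γ : OF.ValueGroupˣ, ((t (u γ) : Lˣ) : L) = j.f ((s γ : Fˣ) : F) := by
    intro γ
    have h1 := ht1 ⟨u γ, γ, rfl⟩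
    rw [← ht₀ γ ⟨γ, rfl⟩, ← h1]
  -- values of E₁
  have hval₁ : ∀ γ : O'.ValueGroupˣ, (∃ x ∈ E₁, O'.valuation x = γ) → ∃ δ : OF.ValueGroupˣ, u δ = γ := by
    rintro γ ⟨x, hx, hxγ⟩
    obtain ⟨_, ⟨a, rfl⟩, hy⟩ := hv₁ x hx
    have h1 : ι.val (OF.valuation a) = γ := by
      rw [ι.val_valuation, ← hxγ]
      exact hy.symm
    exact hH γ _ h1
  have hs'u : ∀ δ : OF.ValueGroupˣ, ((s' (u δ) : F'ˣ) : F') = ι.f ((s δ : Fˣ) : F) := fun δ => hss δ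
  -- step 2
  obtain ⟨E₂, g₂, hx₂, ⟨hp₂, hA₂, hB₂⟩, hmax₂⟩ := zorn (F := F') (L := L)
    (fun E g => Part O' P ρ ν E g ∧
      (∀ γ : O'.ValueGroupˣ, (∃ x ∈ E, O'.valuation x = γ) → ((s' γ : F'ˣ) : F') ∈ E) ∧
      ∀ (γ : O'.ValueGroupˣ) (h : ((s' γ : F'ˣ) : F') ∈ E), g ⟨_, h⟩ = ((t γ : Lˣ) : L))
    (fun c hc hT E g h h' => ⟨part_union c (fun p hp => (hT p hp).1) E g h h', fun γ hγ => by
      obtain ⟨x, hx, hxγ⟩ := hγ
      obtain ⟨p, hp, hxp⟩ := h' x hx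
      exact (h p hp).1 ((hT p hp).2.1 γ ⟨x, hxp, hxγ⟩), fun γ hγ => by
      obtain ⟨p, hp, hxp⟩ := h' _ hγ
      rw [ext_apply (h p hp) hxp hγ]
      exact (hT p hp).2.2 γ hxp⟩) E₁ g₁ ⟨hp₁, fun γ hγ => by
      obtain ⟨δ, rfl⟩ := hval₁ γ hγ
      rw [hs'u]
      exact hx₁.1 (hmem₀ _), fun γ hγ => by
      obtain ⟨δ, rfl⟩ := hval₁ γ ⟨_, hγ, hs' γ⟩
      have h1 : ι.f ((s δ : Fˣ) : F) ∈ E₁ := hx₁.1 (hmem₀ _)
      have h2 : (⟨((s' (u δ) : F'ˣ) : F'), hγ⟩ : E₁) = ⟨ι.f ((s δ : Fˣ) : F), h1⟩ := Subtype.ext (hs'u δ)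
      rw [h2, ext_apply hx₁ (hmem₀ _) h1, hg₀, ht1']⟩
  have hval₂ : ∀ γ, ∃ x ∈ E₂, O'.valuation x = γ := by
    intro γ
    by_cases h0 : γ = 0
    · exact ⟨0, E₂.zero_mem, by rw [map_zero, h0]⟩
    · obtain ⟨E', g', h1, h2, h3, h4, h5⟩ := hVAL F' L O' P ρ ν hν s' t hs' ht2' E₂ g₂ hp₂ hA₂ hB₂ (Units.mk0 γ h0)
      refine ⟨_, hmax₂ E' g' h1 ⟨h2, h4, h5⟩ h3, ?_⟩
      rw [hs']
      rfl
  -- step 3
  obtain ⟨E₃, g₃, hx₃, hp₃, hmax₃⟩ := zorn (F := F') (L := L) (fun E g => Part O' P ρ ν E g)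
    (fun c hc hT E g h h' => part_union c hT E g h h') E₂ g₂ hp₂
  have htop : ∀ x : F', x ∈ E₃ := by
    intro x
    by_contra hx
    obtain ⟨E', g', h1, h2, z, hz, hz'⟩ := hIMM F' L O' P ρ ν hcount hhen hchar hbig hν E₃ g₃ hp₃
      (fun r => by
        obtain ⟨x, hx, hx'⟩ := hres₁ r
        exact ⟨x, hx₃.1 (hx₂.1 hx), hx'⟩)
      (fun γ => by
        obtain ⟨x, hx, hx'⟩ := hval₂ γ
        exact ⟨x, hx₃.1 hx, hx'⟩) x hx
    exact hz' (hmax₃ E' g' h1 h2 hz)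
  -- the embedding
  let f : F' →+* L := g₃.comp ((RingHom.id F').codRestrict E₃ htop)
  have hf : ∀ x, f x = g₃ ⟨x, htop x⟩ := fun x => rfl
  have hfv : ∀ x, P.valuation (f x) = ν (O'.valuation x) := fun x => hp₃.val ⟨x, htop x⟩
  have hfr : ∀ x, rs P (f x) = ρ (rs O' x) := fun x => hp₃.res ⟨x, htop x⟩
  let j' : VEmb O' P := ⟨f, fun x => by
    rw [← ValuationSubring.valuation_le_one_iff, ← ValuationSubring.valuation_le_one_iff, hfv]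
    conv_lhs => rw [← map_one ν]
    exact hν.le_iff_le⟩
  have hj' : ∀ x, j'.f x = f x := fun x => rfl
  refine ⟨j', fun x => ?_, fun r => ?_, fun γ => ?_⟩
  · rw [hj', hf, ext_apply (ext_trans hx₁ (ext_trans hx₂ hx₃)) (hmem₀ x) (htop _), hg₀]
  · obtain ⟨x, -, rfl⟩ := rs_surj O' r
    rw [j'.res_rs, hj', hfr]
  · obtain ⟨x, rfl⟩ := O'.valuation_surjective γ
    rw [j'.val_valuation, hj', hfv]

end Pool.Agent.U88.AK
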